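import Pool.Agent.H70.NE.Targets
import Pool.Agent.H70.NC.MOM

/-!
# Module MOB: the moment bound for the product weights
-/

set_option autoImplicit false

namespace Pool.Agent.H4.NE

open Finset Filter Pool.Agent.H6.NB Pool.Agent.H70.OQ Pool.Agent.H70.NC Pool.Agent.H70.NE
open Pool.Agent.H70.NC.MOM

theorem pf_mob : T_MOB := by
  intro M R _ _ _ _ _ D L L' η p y l g hη0 hη hp1 hp2 hy hL' hLL hl hg
  have hp0 : 0 ≤ p := by linarith
  have hp3 : p ≤ 3 / 4 := by linarith
  have hL'0 : (0 : ℝ) < L' := by exact_mod_cast hL'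
  set μ : M → Bool × R → ℝ := fun m c => (if c.1 = true then p else 1 - p) *
    (if c.2 ∈ Lof l m then 1 / ((Lof l m).card : ℝ) else 0) with hμ
  have hLof : ∀ m, L ≤ (Lof l m).card := by
    intro m
    have h1 : (univ.filter fun r => l (m, r) = true) ≠ ∅ := by
      intro e
      have := hl m
      rw [e, card_empty] at this
      omega
    unfold Lof
    rw [if_neg h1]
    exact hl m
  have h0 : ∀ m c, 0 ≤ μ m c := by
    intro m c
    simp only [hμ]
    apply mul_nonneg
    · split_ifs
      · exact hp0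
      · linarith
    · split_ifs <;> positivity
  have hcpos : ∀ m, (0 : ℝ) < (Lof l m).card := fun m => by
    have := hLof m
    have : 0 < (Lof l m).card := by omega
    exact_mod_cast this
  have hsum : ∀ m, ∑ r, (if r ∈ Lof l m then 1 / ((Lof l m).card : ℝ) else 0) = 1 := by
    intro m
    rw [← sum_filter, filter_mem_eq_inter, univ_inter, sum_const, nsmul_eq_mul]
    exact mul_one_div_cancel (hcpos m).ne'
  have hN : ∀ m, sN (μ m) = 1 - p := by
    intro m
    unfold sN
    simp only [hμ, Bool.false_eq_true, if_false]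
    rw [← mul_sum, hsum, mul_one]
  have hS : ∀ m, sS (μ m) = p := by
    intro m
    unfold sS
    simp only [hμ, if_true]
    rw [← mul_sum, hsum, mul_one]
  set Z : ℝ := (1 / 2 + η) * y + (1 / 2 - η) with hZ
  have hphi : ∀ m, MOM.phi y (μ m) ≤ Z := by
    intro m
    unfold MOM.phi
    rw [hN, hS]
    apply max_le
    · rw [hZ]
      nlinarith
    · rw [hZ]
      nlinarith
  have hSt : ∀ m, St L' (μ m) := by
    intro m
    refine Or.inl fun r => ?_
    rw [hN]
    simp only [hμ, if_true]
    split_ifs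
    · have h1 : (3 : ℝ) * L' ≤ (Lof l m).card := by
        exact_mod_cast hLL.trans (hLof m)
      have h2 : (L' : ℝ) * (p * (1 / ((Lof l m).card : ℝ))) = (L' * p) / (Lof l m).card := by
        ring
      rw [h2, div_le_iff₀ (hcpos m)]
      nlinarith
    · simp only [mul_zero]
      linarith
  have key := claim hy hL' hg μ h0 hSt
  have hZp : ∏ m, MOM.phi y (μ m) ≤ Z ^ Fintype.card M := by
    refine (prod_le_prod (fun m _ => phi_nonneg hy (h0 m)) fun m _ => hphi m).trans (le_of_eq ?_)
    rw [prod_const, card_univ]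
  have hpow : (0 : ℝ) ≤ (1 + 1 / (L' : ℝ)) ^ D := by positivity
  refine le_trans (le_of_eq ?_) (key.trans ((mul_le_mul_of_nonneg_left hZp hpow).trans
    (le_of_eq (mul_comm _ _))))
  unfold V
  rw [← (Equiv.arrowProdEquivProdArrow M (fun _ => Bool) fun _ => R).symm.sum_comp,
    Fintype.sum_prod_type]
  refine sum_congr rfl fun β _ => ?_
  rw [mul_sum]
  refine sum_congr rfl fun h _ => ?_
  rw [← mul_assoc]
  congr 1
  unfold lw uw
  rw [← prod_mul_distrib]
  rfl

end Pool.Agent.H4.NE
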