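import Pool.Agent.H70.NE.Targets

/-!
# Module TLB: the tail bound for deterministic trees
-/

set_option autoImplicit false

namespace Pool.Agent.H4.NE

open Finset Filter Pool.Agent.H6.NB Pool.Agent.H70.OQ Pool.Agent.H70.NC Pool.Agent.H70.NE

theorem hoe (q s : ℝ) (h0 : 0 ≤ q) (h1 : q ≤ 1) :
    q * Real.exp s + (1 - q) ≤ Real.exp (s * q + s ^ 2 / 4) := by
  have hE : 0 < Real.exp (s / 2) := Real.exp_pos _
  have hE' : 0 < Real.exp (-(s / 2)) := Real.exp_pos _
  have hEE : Real.exp (s / 2) * Real.exp (-(s / 2)) = 1 := by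
    rw [← Real.exp_add, add_neg_cancel, Real.exp_zero]
  have e1 : Real.exp s = Real.exp (s / 2) ^ 2 := by
    rw [← Real.exp_nat_mul]
    congr 1
    push_cast
    ring
  have e2 : Real.exp (-s) = Real.exp (-(s / 2)) ^ 2 := by
    rw [← Real.exp_nat_mul]
    congr 1
    push_cast
    ring
  have hconv : Real.exp (-(s * q)) ≤ q * Real.exp (-s) + (1 - q) := by
    have h := convexOn_exp.2 (Set.mem_univ (-s)) (Set.mem_univ 0) h0 (by linarith : 0 ≤ 1 - q)
      (by ring)
    simp only [smul_eq_mul, mul_zero, add_zero, Real.exp_zero, mul_one] at h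
    have e3 : -(s * q) = q * -s := by ring
    rw [e3]
    exact h
  have hcosh : (Real.exp (s / 2) + Real.exp (-(s / 2))) / 2 ≤ Real.exp ((s / 2) ^ 2 / 2) := by
    have := Real.cosh_le_exp_half_sq (s / 2)
    rwa [Real.cosh_eq] at this
  have hpos : 0 ≤ q * Real.exp s + (1 - q) := by
    have := Real.exp_pos s
    nlinarith
  have hmul : Real.exp (-(s * q)) * (q * Real.exp s + (1 - q)) ≤ Real.exp (s ^ 2 / 4) := by
    calc Real.exp (-(s * q)) * (q * Real.exp s + (1 - q))
        ≤ (q * Real.exp (-s) + (1 - q)) * (q * Real.exp s + (1 - q)) :=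
          mul_le_mul_of_nonneg_right hconv hpos
      _ ≤ ((Real.exp (s / 2) + Real.exp (-(s / 2))) / 2) ^ 2 := by
          rw [e1, e2]
          set E := Real.exp (s / 2)
          set E' := Real.exp (-(s / 2))
          have h3 : E ^ 2 * E' ^ 2 = 1 := by rw [← mul_pow, hEE, one_pow]
          have h2 : 0 ≤ (E - E') ^ 2 * (1 / 2 - q) ^ 2 := by positivity
          nlinarith
      _ ≤ (Real.exp ((s / 2) ^ 2 / 2)) ^ 2 := by
          apply pow_le_pow_left₀ (by positivity) hcosh
      _ = Real.exp (s ^ 2 / 4) := by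
          rw [← Real.exp_nat_mul]
          congr 1
          push_cast
          ring
  rw [Real.exp_add]
  have h4 : Real.exp (s * q) * Real.exp (-(s * q)) = 1 := by
    rw [← Real.exp_add, add_neg_cancel, Real.exp_zero]
  calc q * Real.exp s + (1 - q) = Real.exp (s * q) *
        (Real.exp (-(s * q)) * (q * Real.exp s + (1 - q))) := by
        rw [← mul_assoc, h4, one_mul]
    _ ≤ _ := mul_le_mul_of_nonneg_left hmul (Real.exp_pos _).le

theorem uw_nonneg {A Z : Type} [Fintype A] [DecidableEq Z] (L : A → Finset Z) (h : A → Z) :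
    0 ≤ uw L h := by
  unfold uw
  refine prod_nonneg fun a _ => ?_
  split_ifs <;> positivity

theorem lw_nonneg {A : Type} [Fintype A] {p : ℝ} (h0 : 0 ≤ p) (h1 : p ≤ 1) (l : A → Bool) :
    0 ≤ lw p l := by
  unfold lw
  refine prod_nonneg fun a _ => ?_
  split_ifs
  · exact h0
  · linarith

theorem pf_tlb (h1 : T_WAV) (h2 : Pool.Agent.H70.NC.T_QCT) (h3 : T_MOB) : T_TLB := by
  intro M R _ _ _ _ _ D L L' η δ l T hη0 hη hδ hL' hLL hl hT
  refine (h1 M η hη0 hη).2.2.2 _ _ fun p hp1 hp2 => ?_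
  set K : ℕ := Fintype.card M with hK
  set y : ℝ := Real.exp (2 * δ) with hy
  have hy0 : 0 < y := Real.exp_pos _
  have hy1 : 1 ≤ y := Real.one_le_exp (by positivity)
  have hL0 : (0 : ℝ) < L' := by exact_mod_cast (by omega : 0 < L')
  have hqc := h2 (M × R) M D T hT
  have hmom := h3 M R (K * D) L L' η p y l (fun y m => (T m).eval y) hη0 hη hp1 hp2 hy1 hL' hLL
    hl hqc
  have hp0 : 0 ≤ p := by linarith
  have hp3 : p ≤ 1 := by linarith
  -- termwise
  have hterm : ∀ (β : M → Bool) (h : M → R), uw (Lof l) h *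
      ic ((1 / 2 + η + δ) * (K : ℝ) < cnt fun m => (T m).eval (glu h β) = β m) ≤
      Real.exp (-(2 * δ * ((1 / 2 + η + δ) * K))) * (uw (Lof l) h *
        y ^ (univ.filter fun m => (fun y m => (T m).eval y) (glu h β) m = β m).card) := by
    intro β h
    have hu := uw_nonneg (Lof l) h
    have e1 : (univ.filter fun m => (fun y m => (T m).eval y) (glu h β) m = β m).card =
        cnt fun m => (T m).eval (glu h β) = β m := by
      unfold cnt
      congr
    rw [e1]
    set N := cnt fun m => (T m).eval (glu h β) = β m with hN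
    have h3 : ic ((1 / 2 + η + δ) * (K : ℝ) < (N : ℝ)) ≤
        Real.exp (-(2 * δ * ((1 / 2 + η + δ) * K))) * y ^ N := by
      unfold ic
      split_ifs with hc
      · rw [hy, ← Real.exp_nat_mul, ← Real.exp_add]
        apply Real.one_le_exp
        nlinarith
      · positivity
    calc _ ≤ uw (Lof l) h * (Real.exp (-(2 * δ * ((1 / 2 + η + δ) * K))) * y ^ N) :=
          mul_le_mul_of_nonneg_left h3 hu
      _ = _ := by ring
  have hsum : ∑ β : M → Bool, lw p β * ∑ h : M → R, uw (Lof l) h *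
      ic ((1 / 2 + η + δ) * (K : ℝ) < cnt fun m => (T m).eval (glu h β) = β m) ≤
      Real.exp (-(2 * δ * ((1 / 2 + η + δ) * K))) *
        (((1 / 2 + η) * y + (1 / 2 - η)) ^ K * (1 + 1 / (L' : ℝ)) ^ (K * D)) := by
    calc _ ≤ ∑ β : M → Bool, lw p β * ∑ h : M → R, Real.exp (-(2 * δ * ((1 / 2 + η + δ) * K))) *
          (uw (Lof l) h *
            y ^ (univ.filter fun m => (fun y m => (T m).eval y) (glu h β) m = β m).card) :=
          sum_le_sum fun β _ => mul_le_mul_of_nonneg_left (sum_le_sum fun h _ => hterm β h)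
            (lw_nonneg hp0 hp3 β)
      _ = Real.exp (-(2 * δ * ((1 / 2 + η + δ) * K))) * ∑ β : M → Bool, lw p β * ∑ h : M → R,
          uw (Lof l) h *
            y ^ (univ.filter fun m => (fun y m => (T m).eval y) (glu h β) m = β m).card := by
          rw [mul_sum]
          refine sum_congr rfl fun β _ => ?_
          rw [← mul_sum]
          ring
      _ ≤ _ := mul_le_mul_of_nonneg_left hmom (Real.exp_pos _).le
  refine hsum.trans ?_
  have h4 : (1 + 1 / (L' : ℝ)) ^ (K * D) ≤ Real.exp (K * (D / L')) := by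
    calc (1 + 1 / (L' : ℝ)) ^ (K * D) ≤ (Real.exp (1 / (L' : ℝ))) ^ (K * D) := by
          apply pow_le_pow_left₀ (by positivity)
          linarith [Real.add_one_le_exp (1 / (L' : ℝ))]
      _ = Real.exp (K * (D / L')) := by
          rw [← Real.exp_nat_mul]
          congr 1
          push_cast
          ring
  have h5 : (1 / 2 + η) * y + (1 / 2 - η) ≤ Real.exp (2 * δ * (1 / 2 + η) + δ ^ 2) := by
    have h6 := hoe (1 / 2 + η) (2 * δ) (by linarith) (by linarith)
    have e1 : (1 : ℝ) - (1 / 2 + η) = 1 / 2 - η := by ring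
    have e2 : (2 * δ) ^ 2 / 4 = δ ^ 2 := by ring
    rwa [e1, e2] at h6
  have h50 : 0 ≤ (1 / 2 + η) * y + (1 / 2 - η) := by
    have : 0 ≤ (1 / 2 + η) * y := by positivity
    linarith
  have h8 : ((1 / 2 + η) * y + (1 / 2 - η)) ^ K ≤
      Real.exp (K * (2 * δ * (1 / 2 + η) + δ ^ 2)) := by
    calc _ ≤ (Real.exp (2 * δ * (1 / 2 + η) + δ ^ 2)) ^ K := pow_le_pow_left₀ h50 h5 K
      _ = _ := by rw [← Real.exp_nat_mul]
  calc Real.exp (-(2 * δ * ((1 / 2 + η + δ) * K))) *
        (((1 / 2 + η) * y + (1 / 2 - η)) ^ K * (1 + 1 / (L' : ℝ)) ^ (K * D))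
      ≤ Real.exp (-(2 * δ * ((1 / 2 + η + δ) * K))) *
        (Real.exp (K * (2 * δ * (1 / 2 + η) + δ ^ 2)) * Real.exp (K * (D / L'))) := by
        gcongr
    _ = Real.exp (K * (-δ ^ 2 + D / L')) := by
        rw [← Real.exp_add, ← Real.exp_add]
        congr 1
        ring

end Pool.Agent.H4.NE
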